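import Mathlib

set_option autoImplicit false

open Filter Topology Set Polynomial

namespace Pool.Agent.H.MP_1b62a1_an

variable {𝕜 : Type*} [RCLike 𝕜]

theorem lim_choose (a : ℕ) :
    Tendsto (fun n : ℕ => (n.choose a : 𝕜) / n ^ a) atTop (𝓝 (1 / (a.factorial : 𝕜))) := by
  have h1 : Tendsto (fun n : ℕ => (n.choose a : ℝ) / n ^ a) atTop (𝓝 (1 / (a.factorial : ℝ))) := by
    have h := (Asymptotics.isEquivalent_iff_tendsto_one (by
      filter_upwards [eventually_gt_atTop 0] with n hn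
      positivity)).1 (isEquivalent_choose a)
    refine (h.div_const (a.factorial : ℝ)).congr' ?_
    filter_upwards [eventually_gt_atTop 0] with n hn
    simp only [Pi.div_apply]
    field_simp
  have := (RCLike.continuous_ofReal (K := 𝕜)).tendsto _ |>.comp h1
  simpa [Function.comp_def] using this

theorem lim_inv : Tendsto (fun n : ℕ => (n : 𝕜)⁻¹) atTop (𝓝 0) := tendsto_inv_atTop_nhds_zero_nat

theorem det_ne (M : ℕ) :
    (Matrix.of fun j i : Fin M => 1 / ((M + i - j).factorial : 𝕜)).det ≠ 0 := by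
  intro h
  obtain ⟨c, hc, h⟩ := Matrix.exists_mulVec_eq_zero_iff.2 h
  set q : 𝕜[X] := ∑ i : Fin M, C (c i / (M + i).factorial) * X ^ (i : ℕ) with hq
  have h1 : q.degree < M := by
    rw [hq]; exact degree_sum_fin_lt _
  have h2 : q ≠ 0 := fun h0 => hc (funext fun i => by
    have := congrArg (fun p => coeff p i) h0
    simp only [hq, finset_sum_coeff, coeff_C_mul, coeff_X_pow, coeff_zero] at this
    rw [Finset.sum_eq_single i (fun j _ hj => by
      rw [if_neg (fun h => hj (Fin.ext h.symm)), mul_zero]) (by simp)] at this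
    have h3 : ((M + i).factorial : 𝕜) ≠ 0 := by exact_mod_cast Nat.factorial_ne_zero _
    simpa [h3] using this)
  have h3 : (X ^ M * q : 𝕜[X]) ≠ 0 := mul_ne_zero (pow_ne_zero _ X_ne_zero) h2
  have h4 : M ≤ (X ^ M * q : 𝕜[X]).rootMultiplicity 1 := by
    rcases M with _ | M
    · simp
    refine (lt_rootMultiplicity_iff_isRoot_iterate_derivative h3).2 fun j hj => ?_
    have h5 := congrFun h ⟨j, by omega⟩
    simp only [Matrix.mulVec, dotProduct, Matrix.of_apply, Pi.zero_apply] at h5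
    rw [IsRoot, ← h5, hq, Finset.mul_sum, iterate_derivative_sum, eval_finset_sum]
    refine Finset.sum_congr rfl fun i _ => ?_
    rw [mul_left_comm, ← pow_add, iterate_derivative_C_mul, iterate_derivative_X_pow_eq_C_mul]
    have h6 := Nat.factorial_mul_descFactorial (show j ≤ M + 1 + i by omega)
    have h7 : ((M + 1 + i - j).factorial : 𝕜) ≠ 0 := by exact_mod_cast Nat.factorial_ne_zero _
    have h8 : ((M + 1 + i).descFactorial j : 𝕜) ≠ 0 := by
      exact_mod_cast (Nat.descFactorial_pos.2 (show j ≤ M + 1 + i by omega)).ne'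
    simp only [eval_mul, eval_C, eval_pow, eval_X, one_pow, ← h6]
    push_cast
    field_simp
  have h5 : (X - C 1) ^ M ∣ (X ^ M * q : 𝕜[X]) :=
    (pow_dvd_pow _ h4).trans (pow_rootMultiplicity_dvd _ _)
  have h6 : IsCoprime ((X - C 1) ^ M : 𝕜[X]) (X ^ M) :=
    IsCoprime.pow (by simpa using isCoprime_X_sub_C_of_isUnit_sub (a := (1 : 𝕜)) (b := 0) (by simp))
  refine h2 (eq_zero_of_dvd_of_degree_lt (h6.dvd_of_dvd_mul_left h5) ?_)
  rwa [degree_pow, degree_X_sub_C, nsmul_one]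

/-- matrix coefficients of the powers -/
def be (𝕜 : Type*) [RCLike 𝕜] (n i j : ℕ) : 𝕜 := if j ≤ i then (n.choose (i - j) : 𝕜) else 0

theorem be_lim (i j a : ℕ) (h : i < j + a) :
    Tendsto (fun n : ℕ => be 𝕜 n i j / n ^ a) atTop (𝓝 0) := by
  unfold be
  split_ifs with h1
  · obtain ⟨b, rfl⟩ : ∃ b, a = (i - j) + (b + 1) := ⟨a - (i - j) - 1, by omega⟩
    have := (lim_choose (𝕜 := 𝕜) (i - j)).mul (lim_inv.pow (b + 1))
    simp only [zero_pow (Nat.add_one_ne_zero b), mul_zero] at this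
    refine this.congr fun n => ?_
    rw [pow_add (n : 𝕜) (i - j), inv_pow]; field_simp
  · simp

theorem be_lim' (i j a : ℕ) (h : i ≤ j + a) :
    ∃ c, Tendsto (fun n : ℕ => be 𝕜 n i j / n ^ a) atTop (𝓝 c) := by
  rcases h.eq_or_lt with rfl | h
  · exact ⟨_, by simpa [be] using lim_choose (𝕜 := 𝕜) a⟩
  · exact ⟨_, be_lim i j a h⟩

theorem scal (M : ℕ) (z y : ℕ → 𝕜) : ∃ u : ℕ → Fin M → 𝕜,
    (∀ i, Tendsto (fun n => u n i) atTop (𝓝 0)) ∧
    (∀ j, Tendsto (fun n => ∑ i : Fin M, u n i * be 𝕜 n (M + i) (M + j)) atTop (𝓝 0)) ∧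
    ∀ᶠ n in atTop, ∀ j : Fin M,
      ∑ i : Fin M, z i * be 𝕜 n i j + ∑ i : Fin M, u n i * be 𝕜 n (M + i) j = y j := by
  set H : Matrix (Fin M) (Fin M) 𝕜 := Matrix.of fun j i => 1 / ((M + i - j).factorial : 𝕜)
  set G : ℕ → Matrix (Fin M) (Fin M) 𝕜 := fun n => Matrix.of fun j i =>
    (n.choose (M + i - j) : 𝕜) / n ^ (M + i - j)
  have hG : Tendsto G atTop (𝓝 H) :=
    tendsto_pi_nhds.2 fun j => tendsto_pi_nhds.2 fun i => lim_choose _
  have hd : H.det ≠ 0 := det_ne M
  have h1 : Tendsto (fun n => (G n)⁻¹) atTop (𝓝 H⁻¹) :=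
    (continuousAt_matrix_inv H (by
      rw [Ring.inverse_eq_inv']; exact continuousAt_inv₀ hd)).tendsto.comp hG
  have h2 : ∀ᶠ n in atTop, (G n).det ≠ 0 :=
    ((continuous_id.matrix_det.tendsto H).comp hG).eventually_ne hd
  set b : ℕ → Fin M → 𝕜 := fun n j =>
    (y j - ∑ i : Fin M, z i * be 𝕜 n i j) / n ^ (M - j)
  have hb : Tendsto b atTop (𝓝 0) := tendsto_pi_nhds.2 fun j => by
    have h3 := be_lim (𝕜 := 𝕜) j j (M - j) (by omega)
    have h4 := (h3.const_mul (y j)).sub (tendsto_finset_sum Finset.univ fun (i : Fin M) _ =>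
      (be_lim (𝕜 := 𝕜) i j (M - j) (by omega)).const_mul (z i))
    simp only [mul_zero, Finset.sum_const_zero, sub_zero] at h4
    refine h4.congr fun n => ?_
    simp only [b, sub_div, Finset.sum_div, mul_div_assoc]
    simp [be, div_eq_mul_inv]
  have h3 : Tendsto (fun n => (G n)⁻¹.mulVec (b n)) atTop (𝓝 0) := by
    have := ((continuous_fst.matrix_mulVec continuous_snd).tendsto (H⁻¹, 0)).comp (h1.prodMk_nhds hb)
    simpa [Function.comp_def] using this
  have h4 := tendsto_pi_nhds.1 h3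
  refine ⟨fun n i => (G n)⁻¹.mulVec (b n) i / n ^ (i : ℕ), fun i => ?_, fun j => ?_, ?_⟩
  · simpa [div_eq_mul_inv] using (h4 i).mul (lim_inv.pow i)
  · choose c hc using fun i : Fin M => be_lim' (𝕜 := 𝕜) (M + i) (M + j) i (by omega)
    have := tendsto_finset_sum Finset.univ fun (i : Fin M) _ => (h4 i).mul (hc i)
    simp only [Pi.zero_apply, zero_mul, Finset.sum_const_zero] at this
    refine this.congr fun n => Finset.sum_congr rfl fun i _ => ?_
    ring
  · filter_upwards [h2, eventually_gt_atTop 0] with n hn h0 j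
    have h5 := congrFun (show (G n).mulVec ((G n)⁻¹.mulVec (b n)) = b n by
      rw [Matrix.mulVec_mulVec, Matrix.mul_nonsing_inv _ hn.isUnit, Matrix.one_mulVec]) j
    have h6 : (n : 𝕜) ≠ 0 := by exact_mod_cast h0.ne'
    rw [Matrix.mulVec, dotProduct] at h5
    generalize (G n)⁻¹.mulVec (b n) = v at h5 ⊢
    simp only [b] at h5
    rw [eq_div_iff (pow_ne_zero _ h6), Finset.sum_mul] at h5
    rw [add_comm, ← eq_sub_iff_add_eq, ← h5]
    refine Finset.sum_congr rfl fun i _ => ?_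
    simp only [G, Matrix.of_apply, be, if_pos (show (j : ℕ) ≤ M + i by omega)]
    rw [show M + (i : ℕ) - j = (M - j) + i by omega, pow_add]
    field_simp

end Pool.Agent.H.MP_1b62a1_an
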