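import Pool.Agent.H.MP_1b62a1_an.A

set_option autoImplicit false

open Filter Topology Set

namespace Pool.Agent.H.MP_1b62a1_an

variable {𝕜 : Type*} [RCLike 𝕜] {E X Y : Type*} [AddCommGroup E] [Module 𝕜 E]
  [NormedAddCommGroup X] [NormedSpace 𝕜 X] [NormedAddCommGroup Y] [NormedSpace 𝕜 Y]

/-- abstract data -/
structure Dat (𝕜 : Type*) [RCLike 𝕜] (E X Y : Type*) [AddCommGroup E] [Module 𝕜 E]
    [NormedAddCommGroup X] [NormedSpace 𝕜 X] [NormedAddCommGroup Y] [NormedSpace 𝕜 Y] where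
  ι : X →ₗ[𝕜] E
  T : E →ₗ[𝕜] E
  A : X →L[𝕜] X
  B : X →L[𝕜] Y
  g : ℕ → ℕ → E
  γ : ℕ → ℕ → X
  hT : ∀ v, B v = 0 → T (ι v) = ι (A v)
  g0 : ∀ k, T (g k 0) = g k 0
  g1 : ∀ k i, T (g k (i + 1)) = g k (i + 1) + g k i
  gγ : ∀ k i, k ≤ i → g k i = ι (γ k i)
  γB : ∀ k i, k ≤ i → B (γ k (i + 1)) = 0
  γA : ∀ k i, k ≤ i → A (γ k (i + 1)) = γ k (i + 1) + γ k i

namespace Dat

variable (D : Dat 𝕜 E X Y)

def V (L : ℕ) : Submodule 𝕜 X where
  carrier := {v | ∀ t < L, D.B ((D.A ^ t) v) = 0}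
  add_mem' := fun ha hb t ht => by rw [map_add, map_add, ha t ht, hb t ht, add_zero]
  zero_mem' := fun t _ => by simp
  smul_mem' := fun c v hv t ht => by rw [map_smul, map_smul, hv t ht, smul_zero]

theorem V_closed (L : ℕ) : IsClosed (D.V L : Set X) := by
  have : (D.V L : Set X) = ⋂ t < L, {v | D.B ((D.A ^ t) v) = 0} := by
    ext v; simp only [mem_iInter]; rfl
  rw [this]
  exact isClosed_biInter fun t _ => isClosed_eq (by fun_prop) continuous_const

theorem V_mono {L M : ℕ} (h : L ≤ M) {v : X} (hv : v ∈ D.V M) : v ∈ D.V L :=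
  fun t ht => hv t (ht.trans_le h)

theorem V_pow {n : ℕ} {v : X} (hv : v ∈ D.V n) : D.T^[n] (D.ι v) = D.ι ((D.A ^ n) v) := by
  induction n with
  | zero => rfl
  | succ n ih =>
    rw [Function.iterate_succ_apply', ih (D.V_mono n.le_succ hv), D.hT _ (hv n n.lt_succ_self),
      pow_succ']; rfl

theorem γ_mem (k L : ℕ) : ∀ i, k + L ≤ i → D.γ k i ∈ D.V L := by
  induction L with
  | zero => exact fun i _ t ht => absurd ht (Nat.not_lt_zero t)
  | succ L ih =>
    intro i hi t ht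
    obtain ⟨i, rfl⟩ : ∃ j, i = j + 1 := ⟨i - 1, by omega⟩
    rcases t with _ | t
    · exact D.γB k i (by omega)
    · rw [pow_succ, mul_apply_eq_comp, D.γA k i (by omega)]
      exact (D.V L).add_mem (ih _ (by omega)) (ih _ (by omega)) t (by omega)

theorem it_add (n : ℕ) (a b : E) : D.T^[n] (a + b) = D.T^[n] a + D.T^[n] b := by
  simp only [← Module.End.pow_apply, map_add]

theorem T_g (k R n : ℕ) : ∀ i < R,
    D.T^[n] (D.g k i) = ∑ j ∈ Finset.range R, be 𝕜 n i j • D.g k j := by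
  induction n with
  | zero =>
    intro i hi
    rw [Finset.sum_eq_single_of_mem i (Finset.mem_range.2 hi) fun j _ hj => ?_]
    · simp [be]
    · unfold be
      split_ifs with h
      · rw [Nat.choose_eq_zero_of_lt (by omega)]; simp
      · simp
  | succ n ih =>
    intro i hi
    rw [Function.iterate_succ_apply]
    rcases i with _ | i
    · rw [D.g0, ih 0 hi]
      refine Finset.sum_congr rfl fun j _ => ?_
      simp [be]
    · rw [D.g1, it_add, ih _ hi, ih i (by omega), ← Finset.sum_add_distrib]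
      refine Finset.sum_congr rfl fun j _ => ?_
      rw [← add_smul]
      congr 1
      unfold be
      by_cases h : j ≤ i
      · rw [if_pos h, if_pos (by omega), if_pos (by omega), show i + 1 - j = i - j + 1 by omega,
          Nat.choose_succ_succ']
        push_cast; ring
      · by_cases h' : j = i + 1
        · subst h'; simp
        · rw [if_neg h, if_neg (by omega), if_neg (by omega), add_zero]

def W : Submodule 𝕜 E := Submodule.span 𝕜 (range fun p : ℕ × ℕ => D.g p.1 p.2)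

def P (z y : E) : Prop := ∀ L, ∃ u r : ℕ → X, (∀ n, u n ∈ D.V L ∧ D.ι (u n) ∈ D.W) ∧
  Tendsto u atTop (𝓝 0) ∧ Tendsto r atTop (𝓝 0) ∧
  ∀ᶠ n in atTop, D.T^[n] (z + D.ι (u n)) = y + D.ι (r n)

theorem P_add {z y z' y' : E} (h : D.P z y) (h' : D.P z' y') : D.P (z + z') (y + y') := fun L => by
  obtain ⟨u, r, h1, h2, h3, h4⟩ := h L
  obtain ⟨u', r', h1', h2', h3', h4'⟩ := h' L
  refine ⟨fun n => u n + u' n, fun n => r n + r' n, fun n => ⟨add_mem (h1 n).1 (h1' n).1, ?_⟩,
    by simpa using h2.add h2', by simpa using h3.add h3', ?_⟩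
  · rw [map_add]; exact add_mem (h1 n).2 (h1' n).2
  · filter_upwards [h4, h4'] with n a b
    rw [map_add, map_add, add_add_add_comm, it_add, a, b, add_add_add_comm]

theorem P_base (k i0 : ℕ) (a b : 𝕜) : D.P (a • D.g k i0) (b • D.g k i0) := fun L => by
  set M := k + L + i0 + 1
  obtain ⟨u, h1, h2, h3⟩ := scal M (Pi.single i0 a) (Pi.single i0 b)
  have hs : ∀ c : 𝕜, ∑ i : Fin M, (Pi.single i0 c : ℕ → 𝕜) i • D.g k i = c • D.g k i0 := fun c => by
    rw [Finset.sum_eq_single ⟨i0, by omega⟩ (fun j _ hj => by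
      rw [Pi.single_eq_of_ne (fun h => hj (Fin.ext h)), zero_smul]) (by simp)]
    simp
  refine ⟨fun n => ∑ i : Fin M, u n i • D.γ k (M + i), fun n => ∑ j : Fin M,
    (∑ i : Fin M, u n i * be 𝕜 n (M + i) (M + j)) • D.γ k (M + j), fun n => ⟨?_, ?_⟩, ?_, ?_, ?_⟩
  · exact Submodule.sum_mem _ fun i _ => Submodule.smul_mem _ _ (D.γ_mem k L _ (by omega))
  · rw [map_sum]
    refine Submodule.sum_mem _ fun i _ => ?_
    rw [map_smul, ← D.gγ _ _ (by omega)]
    exact Submodule.smul_mem _ _ (Submodule.subset_span ⟨(k, M + i), rfl⟩)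
  · simpa using tendsto_finset_sum Finset.univ fun (i : Fin M) _ =>
      (h1 i).smul_const (D.γ k (M + i))
  · simpa using tendsto_finset_sum Finset.univ fun (j : Fin M) _ =>
      (h2 j).smul_const (D.γ k (M + j))
  · filter_upwards [h3] with n hn
    have h4 : ∀ i : Fin M, D.ι (D.γ k (M + i)) = D.g k (M + i) := fun i =>
      (D.gγ _ _ (by omega)).symm
    rw [← hs a, ← hs b]
    simp only [map_sum, map_smul, h4, ← Module.End.pow_apply, map_add, ← hn]
    simp only [Module.End.pow_apply]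
    have h5 : ∀ i < M + M, D.T^[n] (D.g k i) = ∑ j : Fin M, be 𝕜 n i j • D.g k j +
        ∑ j : Fin M, be 𝕜 n i (M + j) • D.g k (M + j) := fun i hi => by
      rw [D.T_g k _ n i hi, Finset.sum_range_add, Finset.sum_range, Finset.sum_range]
    have h6 : ∀ i j : Fin M, be 𝕜 n i (M + j) = 0 := fun i j => if_neg (by omega)
    simp only [fun i : Fin M => h5 i (by omega), fun i : Fin M => h5 (M + i) (by omega), h6,
      zero_smul, Finset.sum_const_zero, add_zero, smul_add, Finset.smul_sum, smul_smul,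
      Finset.sum_add_distrib, add_smul, Finset.sum_smul, add_assoc]
    congr 1
    · exact Finset.sum_comm
    · congr 1 <;> exact Finset.sum_comm

theorem P_zero : D.P 0 0 := by simpa using D.P_base 0 0 0 0

theorem P_all {z y : E} (hz : z ∈ D.W) (hy : y ∈ D.W) : D.P z y := by
  have h : ∀ w ∈ D.W, ∀ a b : 𝕜, D.P (a • w) (b • w) := fun w hw => by
    induction hw using Submodule.span_induction with
    | mem _ h => obtain ⟨p, rfl⟩ := h; exact D.P_base _ _
    | zero => simpa using D.P_zero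
    | add v w _ _ h1 h2 => intro a b; rw [smul_add, smul_add]; exact D.P_add (h1 a b) (h2 a b)
    | smul c v _ h => intro a b; rw [smul_smul, smul_smul]; exact h _ _
  simpa using D.P_add (h z hz 1 0) (h y hy 0 1)

theorem main [CompleteSpace X] (d : ℕ → E) (hd : ∀ p, d p ∈ D.W) (S : Set ℕ) (hS : S.Infinite) :
    ∃ (x : X) (n : ℕ → ℕ) (r : ℕ → X), (∀ p, n p ∈ S) ∧ Tendsto r atTop (𝓝 0) ∧
      ∀ p, D.T^[n p] (D.ι x) = d p + D.ι (r p) := by
  have step : ∀ (p : ℕ) (s : ℕ × {v // D.ι v ∈ D.W}), ∃ s' : ℕ × {v // D.ι v ∈ D.W},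
      s.1 ≤ s'.1 ∧ s'.1 ∈ S ∧ s'.2.1 - s.2.1 ∈ D.V s.1 ∧
      (∀ t ≤ s.1, ‖(D.A ^ t) (s'.2.1 - s.2.1)‖ ≤ 1 / 2 ^ p) ∧
      ∃ r, ‖r‖ ≤ 1 / 2 ^ p ∧ D.T^[s'.1] (D.ι s'.2.1) = d p + D.ι r := fun p s => by
    obtain ⟨u, r, h1, h2, h3, h4⟩ := D.P_all s.2.2 (hd p) s.1
    have hp : (0 : ℝ) < 1 / 2 ^ p := by positivity
    have h5 : ∀ᶠ n in atTop, ∀ t ∈ Finset.range (s.1 + 1), ‖(D.A ^ t) (u n)‖ ≤ 1 / 2 ^ p :=
      (eventually_all_finset _).2 fun t _ => by
        have := (((D.A ^ t).continuous.tendsto 0).comp h2).norm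
        simp only [map_zero, norm_zero] at this
        exact this.eventually (ge_mem_nhds hp)
    have h6 : ∀ᶠ n in atTop, ‖r n‖ ≤ 1 / 2 ^ p := by
      have := h3.norm
      rw [norm_zero] at this
      exact this.eventually (ge_mem_nhds hp)
    obtain ⟨n, h7, h8, h9, h10, h11⟩ := ((Nat.frequently_atTop_iff_infinite.2 hS).and_eventually
      (h4.and (h5.and (h6.and (eventually_ge_atTop s.1))))).exists
    refine ⟨(n, ⟨s.2.1 + u n, by rw [map_add]; exact add_mem s.2.2 (h1 n).2⟩), h11, h7,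
      by simpa using (h1 n).1, fun t ht => ?_, r n, h10, by simpa using h8⟩
    simpa using h9 t (Finset.mem_range.2 (by omega))
  choose F h1 h2 h3 h4 r h5 h6 using step
  let s : ℕ → ℕ × {v // D.ι v ∈ D.W} := fun p => Nat.rec (0, ⟨0, by simp⟩) F p
  have hs : ∀ p, s (p + 1) = F p (s p) := fun _ => rfl
  have hm : Monotone fun p => (s p).1 := monotone_nat_of_le_succ fun p => h1 p (s p)
  obtain ⟨x, hx⟩ := cauchySeq_tendsto_of_complete (cauchySeq_of_le_geometric_two (C := 2)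
    (f := fun p => (s p).2.1) fun p => by
      rw [dist_comm, dist_eq_norm, hs]
      simpa using h4 p (s p) 0 (Nat.zero_le _))
  have h7 : ∀ p, x - (s p).2.1 ∈ D.V (s p).1 := fun p => by
    refine (D.V_closed _).mem_of_tendsto (hx.sub_const _) (eventually_atTop.2 ⟨p, fun q hq => ?_⟩)
    induction q, hq using Nat.le_induction with
    | base => simp
    | succ q hq ih =>
      have := add_mem (D.V_mono (hm hq) (h3 q (s q))) ih
      rwa [sub_add_sub_cancel] at this
  have h8 : ∀ p, ‖(D.A ^ (s p).1) (x - (s p).2.1)‖ ≤ 2 / 2 ^ p := fun p => by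
    have h9 := dist_le_of_le_geometric_two_of_tendsto₀ (C := 2 / 2 ^ p)
      (f := fun q => (D.A ^ (s p).1) (s (q + p)).2.1) (fun q => by
        rw [dist_comm, dist_eq_norm, ← map_sub, add_right_comm, hs]
        refine (h4 _ _ _ (hm (Nat.le_add_left p q))).trans_eq ?_
        rw [pow_add]; field_simp)
      (((D.A ^ (s p).1).continuous.tendsto x).comp ((tendsto_add_atTop_iff_nat p).2 hx))
    rwa [dist_comm, dist_eq_norm, ← map_sub, zero_add] at h9
  refine ⟨x, fun p => (s (p + 1)).1, fun p => r p (s p) +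
    (D.A ^ (s (p + 1)).1) (x - (s (p + 1)).2.1), fun p => h2 p (s p), ?_, fun p => ?_⟩
  · refine squeeze_zero_norm (a := fun p => 2 * (1 / 2) ^ p) (fun p => ?_) ?_
    · refine (norm_add_le_of_le (h5 p (s p)) (h8 (p + 1))).trans_eq ?_
      rw [pow_succ, one_div_pow]; field_simp; norm_num
    · simpa using (tendsto_pow_atTop_nhds_zero_of_lt_one (r := (1 / 2 : ℝ)) (by norm_num)
        (by norm_num)).const_mul 2
  · rw [map_add, ← add_assoc, ← h6, ← D.V_pow (h7 (p + 1)), ← hs, ← it_add, ← map_add, add_sub_cancel]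

end Dat

end Pool.Agent.H.MP_1b62a1_an
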