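import Pool.Agent.H.MP_1b62a1_an.B
import Pool.Agent.H.MP_8292e8_an.A

set_option autoImplicit false

open Filter Topology Set TopologicalSpace

namespace Pool.Agent.H.MP_1b62a1_an

variable {𝕜 : Type*} [RCLike 𝕜]

theorem bio {X : Type*} [NormedAddCommGroup X] [NormedSpace 𝕜 X] [SeparableSpace X]
    (hX : ¬ FiniteDimensional 𝕜 X) (S : Set (ℕ × ℕ)) (hS : S.Infinite) :
    ∃ (e : ℕ × ℕ → X) (f : ℕ × ℕ → StrongDual 𝕜 X), (∀ j ∉ S, e j = 0 ∧ f j = 0) ∧
      (∀ i j, i ≠ j → f i (e j) = 0) ∧ (∀ j ∈ S, f j (e j) = 1) ∧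
      Dense (Submodule.span 𝕜 (range e) : Set X) := by
  classical
  obtain ⟨e, f, h1, h2, -, h4⟩ := MP_8292e8_an.biorth (𝕜 := 𝕜) (X := X)
  have h5 : ∀ W : Submodule 𝕜 X, (∀ n, e n ≠ 0 → e n ∈ W) → Dense (W : Set X) := fun W hW x => by
    by_contra hx
    have : IsClosed (W.topologicalClosure : Set X) := W.isClosed_topologicalClosure
    have h6 : W.topologicalClosure.mkQ x ≠ 0 := fun h => hx ((Submodule.Quotient.mk_eq_zero _).1 h)
    obtain ⟨g, -, h7⟩ := exists_dual_vector 𝕜 _ (norm_ne_zero_iff.2 h6)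
    have h8 := h4 (g.comp W.topologicalClosure.mkQL) fun n => by
      by_cases h : e n = 0
      · simp [h]
      · change g (W.topologicalClosure.mkQ (e n)) = 0
        rw [show W.topologicalClosure.mkQ (e n) = 0 from
          (Submodule.Quotient.mk_eq_zero _).2 (W.le_topologicalClosure (hW n h)), map_zero]
    have h9 : g (W.topologicalClosure.mkQ x) = 0 := DFunLike.congr_fun h8 x
    rw [h9] at h7
    exact h6 (by simpa using h7.symm)
  have h6 : {n | e n ≠ 0}.Infinite := fun h => hX (by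
    have := FiniteDimensional.span_of_finite 𝕜 (h.image e)
    have h7 := h5 (Submodule.span 𝕜 (e '' {n | e n ≠ 0})) fun n hn =>
      Submodule.subset_span ⟨n, hn, rfl⟩
    have h8 := (Submodule.closed_of_finiteDimensional
      (Submodule.span 𝕜 (e '' {n | e n ≠ 0}))).closure_eq
    rw [h7.closure_eq] at h8
    have h9 : Submodule.span 𝕜 (e '' {n | e n ≠ 0}) = ⊤ := SetLike.coe_injective h8.symm
    rw [h9] at this
    exact Submodule.topEquiv.finiteDimensional)
  have := hS.to_subtype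
  have := h6.to_subtype
  obtain ⟨φ⟩ : Nonempty (S ≃ {n | e n ≠ 0}) := nonempty_equiv_of_countable
  refine ⟨fun j => if h : j ∈ S then e (φ ⟨j, h⟩) else 0,
    fun j => if h : j ∈ S then f (φ ⟨j, h⟩) else 0, fun j hj => by simp [hj], fun i j hij => ?_,
    fun j hj => ?_, h5 _ fun n hn => Submodule.subset_span ⟨φ.symm ⟨n, hn⟩, by simp⟩⟩
  · simp only
    split_ifs with hi hj
    · exact h1 _ _ fun h => hij (congrArg Subtype.val (φ.injective (Subtype.ext h)))
    all_goals simp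
  · simp only [dif_pos hj]
    exact h2 _ (φ ⟨j, hj⟩).2

theorem lev_inf (m : ℕ) : {j : ℕ × ℕ | j.1 - j.2 = m}.Infinite :=
  infinite_of_injective_forall_mem (f := fun i : ℕ => (m + i, i))
    (fun _ _ h => (Prod.ext_iff.1 h).2) fun i => by simp

variable {X : ℕ → Type*} [∀ n, NormedAddCommGroup (X n)] [∀ n, NormedSpace 𝕜 (X n)]

theorem exD [∀ n, CompleteSpace (X n)] [∀ n, SeparableSpace (X n)]
    (hX : ∀ n, ¬ FiniteDimensional 𝕜 (X n)) :
    ∃ D : Dat 𝕜 (Π₀ n, X n) (X 0) (X 1), D.ι = DFinsupp.lsingle 0 ∧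
      (∀ m, ∃ (A : X m →L[𝕜] X m) (B : X m →L[𝕜] X (m + 1)), ∀ v,
        D.T (DFinsupp.single m v) = DFinsupp.single m (A v) + DFinsupp.single (m + 1) (B v)) ∧
      ∀ m, Dense {v | DFinsupp.single m v ∈ D.W} := by
  choose e f h0 h1 h2 h3 using fun m => bio (hX m) _ (lev_inf m)
  simp only [mem_ofPred_eq] at h0 h2
  obtain ⟨a, ha, ha'⟩ : ∃ a : ℕ × ℕ → ℝ, (∀ j, 0 < a j) ∧ Summable a := by
    obtain ⟨a, h, _, h', -⟩ := posSumOfEncodable zero_lt_one (ℕ × ℕ)
    exact ⟨a, h, h'.summable⟩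
  set c : ℕ × ℕ → ℝ := fun j =>
    a j / (1 + ‖f (j.1 - (j.2 + 1)) (j.1, j.2 + 1)‖ * ‖e (j.1 - j.2) j‖) with hc
  have c0 : ∀ j, 0 < c j := fun j => by have := ha j; positivity
  have hs : ∀ m m', Summable fun j : ℕ × ℕ =>
      (c j : 𝕜) • (f m (j.1, j.2 + 1)).smulRight (e m' j) := fun m m' => by
    refine .of_norm_bounded ha' fun j => ?_
    rw [norm_smul, ContinuousLinearMap.norm_smulRight_apply, RCLike.norm_ofReal,
      abs_of_pos (c0 j)]
    have := ha j
    by_cases h : j.1 - (j.2 + 1) = m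
    · by_cases h' : j.1 - j.2 = m'
      · subst h h'
        simp only [hc]
        rw [div_mul_eq_mul_div, div_le_iff₀ (by positivity)]
        nlinarith
      · simp [(h0 m' j h').1, this.le]
    · simp [(h0 m (j.1, j.2 + 1) h).2, this.le]
  set O : ∀ m m', X m →L[𝕜] X m' := fun m m' =>
    ∑' j : ℕ × ℕ, (c j : 𝕜) • (f m (j.1, j.2 + 1)).smulRight (e m' j) with hO
  have hO1 : ∀ m m' v, HasSum (fun j : ℕ × ℕ => ((c j : 𝕜) * f m (j.1, j.2 + 1) v) • e m' j)
      (O m m' v) := fun m m' v => by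
    have := (hs m m').hasSum.mapL (ContinuousLinearMap.apply 𝕜 (X m') v)
    simpa only [ContinuousLinearMap.apply_apply, _root_.smul_apply,
      ContinuousLinearMap.smulRight_apply, smul_smul] using this
  have hO2 : ∀ m m' k, O m m' (e m (k, 0)) = 0 := fun m m' k =>
    (hO1 m m' _).unique (by
      have : ∀ j : ℕ × ℕ, f m (j.1, j.2 + 1) (e m (k, 0)) = 0 := fun j => h1 _ _ _ (by simp)
      simpa [this] using hasSum_zero)
  have hO3 : ∀ m m' k i, k - (i + 1) = m → O m m' (e m (k, i + 1)) = (c (k, i) : 𝕜) • e m' (k, i) :=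
    fun m m' k i h => (hO1 m m' _).unique (by
      have := hasSum_single (f := fun j : ℕ × ℕ =>
        ((c j : 𝕜) * f m (j.1, j.2 + 1) (e m (k, i + 1))) • e m' j) (k, i) fun j hj => by
          rw [h1 _ _ _ (fun h => hj (by simp only [Prod.mk.injEq] at h; exact Prod.ext h.1 (by omega))), mul_zero, zero_smul]
      rwa [h2 m (k, i + 1) h, mul_one] at this)
  set T : (Π₀ n, X n) →ₗ[𝕜] Π₀ n, X n := DFinsupp.lsum ℕ fun m =>
    DFinsupp.lsingle m ∘ₗ (1 + O m m).toLinearMap + DFinsupp.lsingle (m + 1) ∘ₗ (O m (m + 1)).toLinearMap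
  have hT : ∀ m v, T (DFinsupp.single m v) =
      DFinsupp.single m ((1 + O m m) v) + DFinsupp.single (m + 1) (O m (m + 1) v) := fun m v => by
    simp [T]
  set w : ℕ → ℕ → 𝕜 := fun k i => ∏ j ∈ Finset.range i, (c (k, j) : 𝕜)⁻¹
  have c1 : ∀ j, (c j : 𝕜) ≠ 0 := fun j => by exact_mod_cast (c0 j).ne'
  have hw : ∀ k i, w k (i + 1) * c (k, i) = w k i := fun k i => by
    simp only [w, Finset.prod_range_succ, mul_assoc, inv_mul_cancel₀ (c1 _), mul_one]
  have hw0 : ∀ k i, w k i ≠ 0 := fun k i => Finset.prod_ne_zero_iff.2 fun j _ => inv_ne_zero (c1 _)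
  have hsg : ∀ m m' j, m = m' → (DFinsupp.single m (e m j) : Π₀ n, X n) =
      DFinsupp.single m' (e m' j) := fun m m' j h => by subst h; rfl
  refine ⟨⟨DFinsupp.lsingle 0, T, 1 + O 0 0, O 0 1,
    fun k i => w k i • DFinsupp.single (k - i) (e (k - i) (k, i)), fun k i => w k i • e 0 (k, i),
    fun v hv => ?_, fun k => ?_, fun k i => ?_, fun k i h => ?_, fun k i h => ?_, fun k i h => ?_⟩,
    rfl, fun m => ⟨_, _, hT m⟩, fun m => (h3 m).mono ?_⟩
  · simp only [DFinsupp.lsingle_apply, hT]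
    rw [show O 0 (0 + 1) v = 0 from hv]; simp
  · simp [hT, hO2]
  · rw [map_smul, hT, _root_.add_apply, DFinsupp.single_add, hO3 _ _ _ _ rfl, hO3 _ _ _ _ rfl,
      add_assoc, DFinsupp.single_smul, DFinsupp.single_smul, ← smul_add, smul_add, smul_smul, hw]
    congr 2
    by_cases h : k - i = k - (i + 1)
    · rw [(h0 (k - (i + 1) + 1) (k, i) (by simp only; omega)).1, hsg _ _ _ h]; simp
    · rw [(h0 (k - (i + 1)) (k, i) h).1, hsg (k - i) (k - (i + 1) + 1) _ (by omega)]; simp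
  · rw [map_smul, DFinsupp.lsingle_apply, hsg (k - i) 0 _ (by omega)]
  · rw [map_smul, hO3 _ _ _ _ (by omega), (h0 1 (k, i) (by simp only; omega)).1]; simp
  · rw [map_smul, _root_.add_apply, hO3 _ _ _ _ (by omega), smul_add, smul_smul, hw]; rfl
  · refine (Submodule.span_le (p := Submodule.comap (DFinsupp.lsingle m) _)).2 ?_
    rintro _ ⟨⟨k, i⟩, rfl⟩
    by_cases h : k - i = m
    · subst h
      have := Submodule.smul_mem _ (w k i)⁻¹ (Submodule.subset_span (R := 𝕜) (s := range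
        fun p : ℕ × ℕ => w p.1 p.2 • (DFinsupp.single (p.1 - p.2) (e (p.1 - p.2) (p.1, p.2)) :
          Π₀ n, X n)) ⟨(k, i), rfl⟩)
      rwa [inv_smul_smul₀ (hw0 k i)] at this
    · rw [(h0 m (k, i) h).1]; exact zero_mem _

variable [∀ n, NormedSpace ℝ (X n)]

/-- admissible topologies -/
def Adm (𝕜 : Type*) [RCLike 𝕜] (X : ℕ → Type*) [∀ n, NormedAddCommGroup (X n)]
    [∀ n, NormedSpace 𝕜 (X n)] [∀ n, NormedSpace ℝ (X n)] (σ : TopologicalSpace (Π₀ n, X n)) : Prop :=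
  IsTopologicalAddGroup (Π₀ n, X n) ∧ ContinuousSMul 𝕜 (Π₀ n, X n) ∧
    LocallyConvexSpace ℝ (Π₀ n, X n) ∧
    ∀ n, IsInducing (fun v : X n => (DFinsupp.single n v : Π₀ n, X n))

theorem final [∀ n, IsScalarTower ℝ 𝕜 (X n)] [∀ n, CompleteSpace (X n)]
    [∀ n, SeparableSpace (X n)] (hX : ∀ n, ¬ FiniteDimensional 𝕜 (X n))
    (τ : TopologicalSpace (Π₀ n, X n)) (h1 : Adm 𝕜 X τ) (h2 : ∀ σ, Adm 𝕜 X σ → τ ≤ σ) :
    ∃ T : (Π₀ n, X n) →ₗ[𝕜] Π₀ n, X n, Continuous T ∧
      ∀ S : Set ℕ, S.Infinite → ∃ x, Dense ((fun n => T^[n] x) '' S) := by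
  obtain ⟨D, hι, hT, hW⟩ := exD hX
  obtain ⟨i1, i2, i3, i4⟩ := h1
  refine ⟨D.T, ?_, fun S hS => ?_⟩
  · rw [continuous_iff_le_induced]
    refine (h2 (τ.induced D.T ⊓ τ) ⟨topologicalAddGroup_inf (topologicalAddGroup_induced _) i1,
      @continuousSMul_inf _ _ _ _ _ _ (continuousSMul_induced D.T) i2,
      .inf (.induced (D.T.restrictScalars ℝ)) i3, fun m => ?_⟩).trans inf_le_left
    refine @IsInducing.mk _ _ _ (_) _ ?_
    rw [induced_inf, ← (i4 m).eq_induced, induced_compose, eq_comm, inf_eq_right,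
      ← continuous_iff_le_induced]
    obtain ⟨A, B, h⟩ := hT m
    rw [show D.T ∘ (fun v => DFinsupp.single m v) = _ from funext h]
    exact ((i4 m).continuous.comp A.continuous).add ((i4 (m + 1)).continuous.comp B.continuous)
  have : SeparableSpace 𝕜 := inferInstance
  obtain ⟨q, hq⟩ := exists_dense_seq 𝕜
  let φ : List (ℕ × ℕ × ℕ) → Π₀ n, X n := fun l => (l.map fun p => q p.1 • D.g p.2.1 p.2.2).sum
  obtain ⟨ψ, hψ⟩ := exists_surjective_nat (List (ℕ × ℕ × ℕ))
  obtain ⟨x, n, r, h3, h4, h5⟩ := D.main (fun p => φ (ψ p.unpair.1)) (fun p =>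
    list_sum_mem fun y hy => by
      obtain ⟨j, -, rfl⟩ := List.mem_map.1 hy
      exact Submodule.smul_mem _ _ (Submodule.subset_span ⟨j.2, rfl⟩)) S hS
  refine ⟨D.ι x, ?_⟩
  have h6 : range φ ⊆ closure ((fun n => D.T^[n] (D.ι x)) '' S) := by
    rintro _ ⟨l, rfl⟩
    obtain ⟨i, rfl⟩ := hψ l
    have h7 : Tendsto (fun b => Nat.pair i b) atTop atTop :=
      tendsto_atTop_mono (fun b => Nat.right_le_pair i b) tendsto_id
    have h8 := (((i4 0).continuous.tendsto 0).comp (h4.comp h7)).const_add (φ (ψ i))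
    rw [DFinsupp.single_zero, add_zero] at h8
    refine mem_closure_of_tendsto h8 (.of_forall fun b => ⟨_, h3 (Nat.pair i b), ?_⟩)
    simp only [h5, Nat.unpair_pair]
    rw [hι]; rfl
  have hadd : ∀ {a b}, a ∈ closure (range φ) → b ∈ closure (range φ) →
      a + b ∈ closure (range φ) := fun ha hb =>
    map_mem_closure₂ continuous_add ha hb (by
      rintro _ ⟨l, rfl⟩ _ ⟨l', rfl⟩
      exact ⟨l ++ l', by simp [φ]⟩)
  have h7 : ∀ y ∈ D.W, ∀ a : 𝕜, a • y ∈ closure (range φ) := fun y hy => by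
    induction hy using Submodule.span_induction with
    | mem _ h =>
      obtain ⟨p, rfl⟩ := h
      intro a
      refine map_mem_closure (f := fun a : 𝕜 => a • D.g p.1 p.2) (by fun_prop) (hq a) ?_
      rintro _ ⟨i, rfl⟩
      exact ⟨[(i, p)], by simp [φ]⟩
    | zero => exact fun a => subset_closure ⟨[], by simp [φ]⟩
    | add v w _ _ h1 h2 => intro a; rw [smul_add]; exact hadd (h1 a) (h2 a)
    | smul c v _ h => intro a; rw [smul_smul]; exact h _
  intro y
  refine closure_minimal h6 isClosed_closure ?_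
  induction y using DFinsupp.induction with
  | h0 => exact subset_closure ⟨[], by simp [φ]⟩
  | ha m v y _ _ ih =>
    refine hadd ?_ ih
    rw [← closure_closure]
    exact map_mem_closure (i4 m).continuous (hW m v) fun w hw => by simpa using h7 _ hw 1

theorem exfin : ∃ τ, Adm 𝕜 X τ ∧ ∀ σ, Adm 𝕜 X σ → τ ≤ σ := by
  have h0 : ∃ σ, Adm 𝕜 X σ := by
    let f : (Π₀ n, X n) →ₗ[𝕜] Π n, X n := DFinsupp.coeFnLinearMap 𝕜
    let f' : (Π₀ n, X n) →ₗ[ℝ] Π n, X n := DFinsupp.coeFnLinearMap ℝ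
    letI σ : TopologicalSpace (Π₀ n, X n) := TopologicalSpace.induced f inferInstance
    refine ⟨σ, topologicalAddGroup_induced f, continuousSMul_induced f, .induced f', fun n => ?_⟩
    refine (Function.LeftInverse.isEmbedding (f := fun y : Π₀ n, X n => y n) (fun v => by simp)
      ((continuous_apply n).comp continuous_induced_dom) (continuous_induced_rng.2 ?_)).isInducing
    have : (f ∘ fun v : X n => (DFinsupp.single n v : Π₀ n, X n)) = fun v => Pi.single n v := by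
      funext v; exact DFinsupp.single_eq_pi_single
    exact (continuous_single n).congr fun v => (congrFun this v).symm
  refine ⟨sInf {σ | Adm 𝕜 X σ}, ⟨topologicalAddGroup_sInf fun _ h => h.1,
    continuousSMul_sInf fun _ h => h.2.1, .sInf fun _ h => h.2.2.1, fun n => ?_⟩,
    fun σ h => sInf_le h⟩
  refine @IsInducing.mk _ _ _ (_) _ (le_antisymm ?_ ?_)
  · rw [induced_sInf]
    refine le_sInf ?_
    rintro _ ⟨σ, h, rfl⟩
    exact (@IsInducing.eq_induced _ _ _ σ _ (h.2.2.2 n)).le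
  · obtain ⟨σ, h⟩ := h0
    exact (induced_mono (sInf_le h)).trans (@IsInducing.eq_induced _ _ _ σ _ (h.2.2.2 n)).ge

end Pool.Agent.H.MP_1b62a1_an
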